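import Pool.Agent.LPR.Stmts

/-!
# Squad SSF (MP_005a41_gt): local products with a self-similar compact factor

THEOREM (`FsmStmt`).  Let `X` be a metrizable space.  If every point has a neighbourhood homeomorphic to `S × M`, where `S` is a
space and `M` is a compact metrizable space with more than one point such that every nonempty open subset of `M` contains a copy of `M` (an interval, the Cantor set,
the Hilbert cube, the Menger curve, the pseudo-arc, ...; `S` and `M` depend on the point), or if every point is moved by some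
continuous action of `ℝ` on `X` (which depends on the point), then `X` is l-stable and S-stable.

IDEA.  As for the interval (`Pool/Agent/LPR/Stmts.lean`): only the row REL (open subsets of `S × [0, 1]` are stable) changes.

RULES.  One file per row: `Pool/Agent/HelperNN_SSF/XXX.lean`, import `Pool.Agent.SSF.Stmts`, namespace `Pool.Agent.SSF.HNN`,
`open Pool.Agent.LSG Pool.Agent.LPR Pool.Agent.SSF`, theorem `xxx (the rows used, as hypotheses, in the order of uses) : XxxStmt`.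
Never `convert`, `congr!`, straight double quotes.
-/

set_option autoImplicit false

open Set Topology
open scoped BigOperators

namespace Pool.Agent.SSF

open Pool.Agent.LSG Pool.Agent.LPR

/-- every nonempty open subset of `M` contains a copy of `M` -/
def Sim (M : Type) [TopologicalSpace M] : Prop :=
  ∀ U : Set M, IsOpen U → U.Nonempty → ∃ η : M → M, Continuous η ∧ Function.Injective η ∧
    ∀ u, η u ∈ U

/-- every point has a neighbourhood homeomorphic to some `S × M`, `M` compact metrizable, not a point, with `Sim M` -/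
def LocSim (X : Type) [TopologicalSpace X] : Prop :=
  ∀ x : X, ∃ N ∈ 𝓝 x, ∃ (S M : Type) (_ : TopologicalSpace S) (_ : TopologicalSpace M),
    CompactSpace M ∧ TopologicalSpace.MetrizableSpace M ∧ Nontrivial M ∧ Sim M ∧
      Nonempty (↥N ≃ₜ S × M)

/-! ## Block A: the data -/

/-- **HAM** (easy; uses HAT).  Partition in the scale, and two cutoffs.
PROOF. `h m = (h₀ m) ^ 2` with `h₀` from HAT (`LPR.HatStmt`).  `h' m r = max 0 (min 1 (min (r * 2 ^ (m + 2) - 1) ((4 - r * 2 ^ m) / 2)))`: 1 if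
`2^(-m-1) ≤ r ≤ 2 * 2^(-m)`, 0 if `r ≤ 2^(-m-2)` or `r ≥ 4 * 2^(-m)`.  `θ m r = max 0 (min 1 (min (r * 2 ^ (m + 4) - 1) ((16 - r * 2 ^ m) / 8)))`. -/
def HamStmt : Prop := ∃ h h' θ : ℕ → C(ℝ, ℝ), (∀ m r, 0 ≤ h m r) ∧
  (∀ m r, 0 ≤ h' m r ∧ h' m r ≤ 1) ∧ (∀ m r, 0 ≤ θ m r ∧ θ m r ≤ 1) ∧
  (∀ m r, h m r ≠ 0 → h' m r = 1) ∧
  (∀ m r, h' m r ≠ 0 → (1 / 2 : ℝ) ^ (m + 2) < r ∧ r < 4 * (1 / 2 : ℝ) ^ m) ∧
  (∀ m r, (1 / 2 : ℝ) ^ (m + 3) ≤ r → r ≤ 8 * (1 / 2 : ℝ) ^ m → θ m r = 1) ∧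
  (∀ m r, θ m r ≠ 0 → (1 / 2 : ℝ) ^ (m + 4) < r ∧ r < 16 * (1 / 2 : ℝ) ^ m) ∧
  ∀ r : ℝ, 0 < r → r ≤ 1 → ∃ j : ℕ, (∀ m, h m r ≠ 0 → m = j ∨ m = j + 1) ∧
    h j r + h (j + 1) r = 1

/-- **BAM** (easy-medium).  Finite partitions of unity of `M` at all scales.
PROOF. Fix `m`, `r = 2 ^ (-m-7)`.  Finitely many balls of radius `r` with centres `c k`, `k < K`, cover `M` (`K ≥ 1`; `c` arbitrary for `k ≥ K`).  `b k t = max 0 (r - dist t (c k))` for `k < K`, 0 otherwise; the sum `s t` over `k < K` is `> 0`,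
`B k = b k / s`.  `B' k t = max 0 (min 1 (2 - dist t (c k) / r))` for `k < K` (1 if `dist ≤ r`, 0 if `dist ≥ 2 r = 2 ^ (-m-6)`), 0 otherwise.  Choice over `m`. -/
def BamStmt : Prop := ∀ (M : Type) [MetricSpace M] [CompactSpace M] [Nonempty M],
  ∃ (K : ℕ → ℕ) (c : ℕ → ℕ → M) (B B' : ℕ → ℕ → C(M, ℝ)), (∀ m k t, 0 ≤ B m k t) ∧
  (∀ m k t, 0 ≤ B' m k t ∧ B' m k t ≤ 1) ∧ (∀ m k t, B m k t ≠ 0 → B' m k t = 1) ∧
  (∀ m k t, B' m k t ≠ 0 → k < K m ∧ dist t (c m k) < (1 / 2 : ℝ) ^ (m + 5)) ∧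
  ∀ m t, ∑ k ∈ Finset.range (K m), B m k t = 1

/-- The pieces for the open set `O` of `S × M`: `χ m k` is a partition of unity of `O`, `ψ m k = 1` where `χ m k ≠ 0`; the piece `(m, k)`
lives where `ρ` is about `2 ^ (-m)` and the second coordinate is near `c m k`. -/
structure Pieces {S M : Type} [TopologicalSpace S] [MetricSpace M] (O : Set (S × M))
    (ρ : C(S × M, ℝ)) (χ ψ : ℕ → ℕ → C(S × M, ℝ)) (K : ℕ → ℕ) (c : ℕ → ℕ → M) : Prop where
  nonneg : ∀ x, 0 ≤ ρ x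
  zero : ∀ x, ρ x ≠ 0 ↔ x ∈ O
  lip : ∀ (s : S) (t t' : M), |ρ (s, t) - ρ (s, t')| ≤ dist t t'
  chi0 : ∀ m k x, 0 ≤ χ m k x
  psi01 : ∀ m k x, 0 ≤ ψ m k x ∧ ψ m k x ≤ 1
  one : ∀ m k x, χ m k x ≠ 0 → ψ m k x = 1
  supp : ∀ m k x, ψ m k x ≠ 0 → k < K m ∧ (1 / 2 : ℝ) ^ (m + 2) < ρ x ∧
    ρ x < 4 * (1 / 2 : ℝ) ^ m ∧ dist x.2 (c m k) < (1 / 2 : ℝ) ^ (m + 5)
  cover : ∀ x ∈ O, ∑ᶠ α : ℕ × ℕ, χ α.1 α.2 x = 1

/-- **PAM** (medium; uses HAM BAM).  Existence of the pieces.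
PROOF. A metric of `S` (`TopologicalSpace.metrizableSpaceMetric`); `S × M` has the maximum metric, so `dist (s, t) (s, t') = dist t t'`.  `ρ x = min 1 (infDist x Oᶜ)` (constant 1 if `O = univ`).
`χ m k x = h m (ρ x) * B m k x.2`, `ψ m k x = h' m (ρ x) * B' m k x.2`.  `cover`: the sum over `m ∈ {j, j + 1}` (HAM for `ρ x`), `k < K m`.  (Compare `Pool/Agent/Helper81_LPR/CHI.lean`.) -/
def PamStmt : Prop := ∀ (S M : Type) [TopologicalSpace S] [TopologicalSpace.MetrizableSpace S]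
  [MetricSpace M] [CompactSpace M] [Nonempty M], ∃ (K : ℕ → ℕ) (c : ℕ → ℕ → M),
  ∀ (O : Set (S × M)), IsOpen O → ∃ ρ χ ψ, Pieces O ρ χ ψ K c

/-- The slots: inside the slot `(m, k)` (where `w m k ≠ 0`) there are a point `p m k` and disjoint copies `η m k n` of `M` which converge to it. -/
structure Plots {M : Type} [MetricSpace M] (K : ℕ → ℕ) (c p : ℕ → ℕ → M)
    (η : ℕ → ℕ → ℕ → M → M) (w : ℕ → ℕ → C(M, ℝ)) : Prop where
  cont : ∀ m k n, Continuous (η m k n)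
  inj : ∀ m k n n' u u', η m k n u = η m k n' u' → n = n' ∧ u = u'
  ne : ∀ m k n u, η m k n u ≠ p m k
  conv : ∀ m k n u, dist (η m k n u) (p m k) ≤ (1 / 2 : ℝ) ^ (m + 6) / (n + 1)
  w01 : ∀ m k t, 0 ≤ w m k t ∧ w m k t ≤ 1
  onep : ∀ m k, k < K m → w m k (p m k) = 1
  one : ∀ m k n u, k < K m → w m k (η m k n u) = 1
  supp : ∀ m k t, w m k t ≠ 0 → k < K m ∧ dist t (c m k) < (1 / 2 : ℝ) ^ (m + 5)
  sep : ∀ m k m' k' t, m ≤ m' + 7 → m' ≤ m + 7 → w m k t ≠ 0 → w m' k' t ≠ 0 → m = m' ∧ k = k'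

/-- **SLM** (medium-strong).  Existence of the slots.
PROOF. `M` has no isolated point (an open point would contain a copy of `M`, but `M` has two points), so every nonempty open set is infinite.  (1) Distinct points `p m k` with `dist (p m k) (c m k) < 2^(-m-6)`: an injective choice from countably many infinite sets
(`ℕ × ℕ` is countable; recursion).  (2) Radii `0 < r m k ≤ 2^(-m-6)` with `3 * r m k ≤ dist (p m k) (p m' k')` for the finitely many other `(m', k')` with `k' < K m'`, `|m - m'| ≤ 7`.  `w m k t = max 0 (min 1 (2 - 2 * dist t (p m k) / r m k))` for `k < K m` (1 if `dist ≤ r / 2`,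
0 if `dist ≥ r`), 0 otherwise.  `sep`: `dist (p m k) (p m' k') < r + r' ≤ (2/3) dist (p m k) (p m' k')`, so the two points are equal.  (3) Fix `(m, k)`, `p`, `r`.  Recursion: `δ 0 = r / 2`, `q n ≠ p` with `dist (q n) p < min (δ n) (r / (2 (n + 1)))`, `δ (n + 1) = dist (q n) p / 2`; `η n` a copy of `M` in the
open set `{t | dist (q n) p / 2 < dist t p ∧ dist t p < min (δ n) (r / (2 (n + 1)))}` (it contains `q n`).  Different `n`: disjoint annuli. -/
def SlmStmt : Prop := ∀ (M : Type) [MetricSpace M] [CompactSpace M] [Nontrivial M], Sim M →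
  ∀ (K : ℕ → ℕ) (c : ℕ → ℕ → M), ∃ p η w, Plots K c p η w

/-- **EXM** (medium; edit of the row DUG, `Pool/Agent/Helper37_LSG/DUG.lean`).  Dugundji's extension with parameters.
PROOF. For `t ∉ L` let `a t ∈ L` with `dist t (a t) ≤ 2 * infDist t L`, and a partition of unity `ρ_i` of the space `↥Lᶜ`, `ρ_i` supported in the ball of centre `x_i` and radius `infDist x_i L / 4`.  `ν t = ∑ ρ_i t • single (a x_i) 1` off `L` (finite sum), `ν t = single t 1` on `L`.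
If `ν t a ≠ 0` and `b ∈ L` then `dist a b ≤ 4 * dist t b` (see DUG).  Continuity at `(s₀, t₀)`: `t₀ ∉ L`: a locally finite sum of the continuous functions `ρ_i t * g (s, a x_i)`.  `t₀ ∈ L`: all `a` with `ν t a ≠ 0` are within `4 * dist t t₀` of `t₀`, `g` is
continuous on `univ ×ˢ L` at `(s₀, t₀)`, and the value is a convex combination of the `g (s, a)`. -/
def ExmStmt : Prop := ∀ (M : Type) [MetricSpace M] (L : Set M), IsClosed L → L.Nonempty →
  ∃ ν : M → (M →₀ ℝ), (∀ t a, 0 ≤ ν t a) ∧ (∀ t a, ν t a ≠ 0 → a ∈ L) ∧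
    (∀ t, (ν t).sum (fun _ r => r) = 1) ∧ (∀ a ∈ L, ν a = Finsupp.single a 1) ∧
    ∀ (S : Type) [TopologicalSpace S] (g : S × M → ℝ), ContinuousOn g (Set.univ ×ˢ L) →
      Continuous fun x : S × M => (ν x.2).sum fun a r => r * g (x.1, a)

/-- the limit set of a sequence of copies -/
def Lim {M : Type} (p : M) (η : ℕ → M → M) : Set M := {a | a = p ∨ ∃ n u, η n u = a}

open Classical in
/-- the function `ψ * F` moved to the copies: `(s, η n u) ↦ ψ (s, u) * F ((s, u), n)`, and 0 elsewhere -/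
noncomputable def Gm {S M : Type} (η : ℕ → M → M) (ψ : S × M → ℝ)
    (F : (S × M) × OnePoint ℕ → ℝ) (x : S × M) : ℝ :=
  if h : ∃ q : ℕ × M, η q.1 q.2 = x.2 then
    ψ (x.1, (Classical.choose h).2) *
      F ((x.1, (Classical.choose h).2), (((Classical.choose h).1 : ℕ) : OnePoint ℕ))
  else 0

/-- **GMC** (medium).  The moved function.
PROOF. (1) `choose` gives `(n, u)` by injectivity.  (2) clear.  (3) every `range (η n)` is compact and does not contain `p`, and `η n → p` uniformly.  (4) Closed: a convergent sequence (or a filter) in `Lim` is either in finitely many compact ranges, or tends to `p`.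
(5) Continuity on `univ ×ˢ Lim p η`.  At `(s₀, η n u₀)`: `range (η n)` is a neighbourhood of `η n u₀` in `Lim` (the other ranges and `p` have positive distance: finitely many compact sets and a set near `p`), and `η n` is an embedding (`M` compact): the function is `(s, u) ↦ ψ (s, u) * F ((s, u), n)` read through `η n`.
At `(s₀, p)`: the value is 0; for `a = η n u` near `p` `n` is large, and `|F ((s, u), n)| < ε` for `s` near `s₀`, all `u`, `n ≥ n₀` (tube lemma: `F = 0` on the compact set `{s₀} × M × {∞}`), `|ψ| ≤ 1`. -/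
def GmcStmt : Prop := ∀ (S M : Type) [TopologicalSpace S] [MetricSpace M] [CompactSpace M]
  (p : M) (η : ℕ → M → M) (δ : ℝ) (ψ : C(S × M, ℝ)) (F : (S × M) × OnePoint ℕ → ℝ),
  (∀ n, Continuous (η n)) → (∀ n n' u u', η n u = η n' u' → n = n' ∧ u = u') →
  (∀ n u, η n u ≠ p) → (∀ n u, dist (η n u) p ≤ δ / (n + 1)) →
  (∀ x, 0 ≤ ψ x ∧ ψ x ≤ 1) → Continuous F → (∀ x, F (x, OnePoint.infty) = 0) →
  (∀ s n u, Gm η ψ F (s, η n u) = ψ (s, u) * F ((s, u), ((n : ℕ) : OnePoint ℕ))) ∧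
  (∀ s, Gm η ψ F (s, p) = 0) ∧ IsClosed (Lim p η) ∧
  ContinuousOn (Gm η ψ F) (Set.univ ×ˢ Lim p η)

/-! ## Block B: the two maps -/

/-- the embedding -/
noncomputable def im {S M : Type} [TopologicalSpace S] [MetricSpace M] (θ : ℕ → C(ℝ, ℝ))
    (ρ : C(S × M, ℝ)) (ψ : ℕ → ℕ → C(S × M, ℝ)) (η : ℕ → ℕ → ℕ → M → M)
    (w : ℕ → ℕ → C(M, ℝ)) (ν : ℕ → ℕ → M → (M →₀ ℝ)) (F : (S × M) × OnePoint ℕ → ℝ)
    (x : S × M) : ℝ :=
  ∑ᶠ α : ℕ × ℕ, θ α.1 (ρ x) * w α.1 α.2 x.2 *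
    (ν α.1 α.2 x.2).sum fun a r => r * Gm (η α.1 α.2) (ψ α.1 α.2) F (x.1, a)

/-- the `n`-th function of the projection -/
noncomputable def pm {S M : Type} [TopologicalSpace S] [MetricSpace M]
    (χ : ℕ → ℕ → C(S × M, ℝ)) (p : ℕ → ℕ → M) (η : ℕ → ℕ → ℕ → M → M) (g : S × M → ℝ) (n : ℕ)
    (x : S × M) : ℝ :=
  ∑ᶠ α : ℕ × ℕ, χ α.1 α.2 x * (g (x.1, η α.1 α.2 n x.2) - g (x.1, p α.1 α.2))

/-- the cutoffs (third part of HAM) -/
structure Cut (θ : ℕ → C(ℝ, ℝ)) : Prop where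
  bd : ∀ m r, 0 ≤ θ m r ∧ θ m r ≤ 1
  one : ∀ m r, (1 / 2 : ℝ) ^ (m + 3) ≤ r → r ≤ 8 * (1 / 2 : ℝ) ^ m → θ m r = 1
  supp : ∀ m r, θ m r ≠ 0 → (1 / 2 : ℝ) ^ (m + 4) < r ∧ r < 16 * (1 / 2 : ℝ) ^ m

/-- the extension weights (EXM for the sets `Lim (p m k) (η m k)`) -/
structure Wts {M : Type} [MetricSpace M] (p : ℕ → ℕ → M) (η : ℕ → ℕ → ℕ → M → M)
    (ν : ℕ → ℕ → M → (M →₀ ℝ)) : Prop where
  nonneg : ∀ m k t a, 0 ≤ ν m k t a
  supp : ∀ m k t a, ν m k t a ≠ 0 → a ∈ Lim (p m k) (η m k)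
  sum : ∀ m k t, (ν m k t).sum (fun _ r => r) = 1
  fix : ∀ m k, ∀ a ∈ Lim (p m k) (η m k), ν m k a = Finsupp.single a 1
  cont : ∀ m k (S : Type) [TopologicalSpace S] (g : S × M → ℝ),
    ContinuousOn g (Set.univ ×ˢ Lim (p m k) (η m k)) →
      Continuous fun x : S × M => (ν m k x.2).sum fun a r => r * g (x.1, a)

/-- **UNM** (easy).  Uniqueness of the term, and the distances.
PROOF. (1) `θ m (ρ x) ≠ 0`, `θ m' (ρ x) ≠ 0`: `2^(-m-4) < 16 * 2^(-m')`, so `m' < m + 8`; symmetric; `Plots.sep`.  (2) both `t` and `u` are within `2^(-m-5)` of `c m k`, so `dist t u < 2^(-m-4)`; by `lip` and `Pieces.supp` (for `(s, u)`)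
`ρ (s, t)` is between `2^(-m-2) - 2^(-m-4) ≥ 2^(-m-3)` and `4 * 2^(-m) + 2^(-m-4) ≤ 8 * 2^(-m)`: `θ = 1`. -/
def UnmStmt : Prop := ∀ (S M : Type) [TopologicalSpace S] [MetricSpace M]
  (O : Set (S × M)) (ρ : C(S × M, ℝ)) (χ ψ : ℕ → ℕ → C(S × M, ℝ)) (K : ℕ → ℕ)
  (c p : ℕ → ℕ → M) (η : ℕ → ℕ → ℕ → M → M) (w : ℕ → ℕ → C(M, ℝ)) (θ : ℕ → C(ℝ, ℝ)),
  Pieces O ρ χ ψ K c → Plots K c p η w → Cut θ →
  (∀ (x : S × M) (m k m' k' : ℕ), θ m (ρ x) * w m k x.2 ≠ 0 → θ m' (ρ x) * w m' k' x.2 ≠ 0 →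
    m = m' ∧ k = k') ∧
  ∀ (s : S) (t u : M) (m k : ℕ), w m k t ≠ 0 → ψ m k (s, u) ≠ 0 →
    dist t u < (1 / 2 : ℝ) ^ (m + 4) ∧ θ m (ρ (s, t)) = 1

/-- **IMM** (medium-strong; uses GMC UNM).  The embedding.
PROOF. Every term is a continuous function of `x` (GMC, `Wts.cont`).  (A) `x₀ ∉ O`: `ρ x₀ = 0`, all terms are 0 (`Cut.supp`).  Let `ε > 0`; `F` is continuous and 0 on `{x₀} × OnePoint ℕ` (compact): there is a neighbourhood `W` of `x₀` with `|F (y, n)| < ε` for `y ∈ W` and all `n`.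
For `x = (s, t)` near `x₀` there is at most one nonzero term (UNM (1)); it is at most `max |Gm (s, a)|` over the `a` with `ν t a ≠ 0` (weights `≥ 0` with sum 1), and `Gm (s, a) ≠ 0` means `a = η n u`, `|Gm (s, a)| ≤ |F ((s, u), n)|`, `ψ m k (s, u) ≠ 0`, so `dist t u < 2^(-m-4) < ρ (s, t)` (UNM (2), `Cut.supp`), which is small:
`(s, u) ∈ W`.  (B) `x₀ ∈ O`: in the neighbourhood `{ρ x > ρ x₀ / 2}` only finitely many `(m, k)` have nonzero terms (`ρ x < 16 * 2^(-m)`, `k < K m`): a finite sum.  `im F` vanishes off `O` by (A). -/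
def ImmStmt : Prop := ∀ (S M : Type) [TopologicalSpace S] [MetricSpace M] [CompactSpace M]
  (O : Set (S × M)) (ρ : C(S × M, ℝ)) (χ ψ : ℕ → ℕ → C(S × M, ℝ)) (K : ℕ → ℕ)
  (c p : ℕ → ℕ → M) (η : ℕ → ℕ → ℕ → M → M) (w : ℕ → ℕ → C(M, ℝ)) (θ : ℕ → C(ℝ, ℝ))
  (ν : ℕ → ℕ → M → (M →₀ ℝ)),
  Pieces O ρ χ ψ K c → Plots K c p η w → Cut θ → Wts p η ν →
  ∀ F ∈ Sg O, im θ ρ ψ η w ν F ∈ Fo O

/-- **PRM** (medium; compare `Pool/Agent/Helper61_LPR/REP.lean`).  The projection.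
PROOF. `D (m,k) n (s, t) = g (s, η m k n t) - g (s, p m k)` tends to 0 for `n → ∞`, uniformly in `t` and locally uniformly in `s` (`Plots.conv`; `g` continuous), so it is a continuous function of `((s, t), n)` with the
value 0 at `n = ∞`.  At `x₀ ∈ O`: near `x₀` `ρ > ρ x₀ / 2`, so only finitely many `(m, k)` have `χ m k x ≠ 0`: finite sum.  At `x₀ ∉ O`: the value is 0; for `x = (s, t)` near `x₀` and `χ m k x ≠ 0` the points
`(s, η m k n t)`, `(s, p m k)` are within `2 ^ (-m-3)` of `x` (`Plots.conv`, `Plots.supp` for `p m k`, `Pieces.supp`), and `2 ^ (-m-3) < ρ x` is small, so near `x₀`, where `|g| < ε`: the sum is at most `2 ε` (`χ ≥ 0` with sum 1 on `O`, 0 off `O`). -/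
def PrmStmt : Prop := ∀ (S M : Type) [TopologicalSpace S] [MetricSpace M] [CompactSpace M]
  (O : Set (S × M)) (ρ : C(S × M, ℝ)) (χ ψ : ℕ → ℕ → C(S × M, ℝ)) (K : ℕ → ℕ)
  (c p : ℕ → ℕ → M) (η : ℕ → ℕ → ℕ → M → M) (w : ℕ → ℕ → C(M, ℝ)),
  Pieces O ρ χ ψ K c → Plots K c p η w →
  ∀ g ∈ Fo O, ∃ G ∈ Sg O, ∀ (x : S × M) (n : ℕ), G (x, (n : OnePoint ℕ)) = pm χ p η g n x

/-- **QRM** (easy-medium; uses GMC UNM).  The projection is a left inverse of the embedding.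
PROOF. Let `χ m k x ≠ 0`, `x = (s, t)`: `ψ m k x = 1`, `k < K m`.  `im F (s, p m k) = 0` and `im F (s, η m k n t) = F (x, n)`: the term `(m, k)` has `θ = 1` (UNM (2) with `u = t`), `w = 1`, `ν a = single a 1` (`Wts.fix`), so it is `Gm (s, p m k) = 0` and
`Gm (s, η m k n t) = ψ m k x * F (x, n)` (GMC); all other terms are 0 by UNM (1).  So `pm (im F) n x = ∑ᶠ α, χ α x * F (x, n) = F (x, n)` for `x ∈ O` (`Pieces.cover`); for `x ∉ O` both are 0 (`χ = 0`, `F ∈ Sg O`). -/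
def QrmStmt : Prop := ∀ (S M : Type) [TopologicalSpace S] [MetricSpace M] [CompactSpace M]
  (O : Set (S × M)) (ρ : C(S × M, ℝ)) (χ ψ : ℕ → ℕ → C(S × M, ℝ)) (K : ℕ → ℕ)
  (c p : ℕ → ℕ → M) (η : ℕ → ℕ → ℕ → M → M) (w : ℕ → ℕ → C(M, ℝ)) (θ : ℕ → C(ℝ, ℝ))
  (ν : ℕ → ℕ → M → (M →₀ ℝ)),
  Pieces O ρ χ ψ K c → Plots K c p η w → Cut θ → Wts p η ν →
  ∀ F ∈ Sg O, ∀ (x : S × M) (n : ℕ),
    pm χ p η (im θ ρ ψ η w ν F) n x = F (x, (n : OnePoint ℕ))

/-- **RLM** (medium; uses HAM PAM SLM EXM GMC UNM IMM PRM QRM; compare `Pool/Agent/Helper50_LPR/REL.lean`).  Open subsets of `S × M` are stable.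
PROOF. `i F = im F`, `q g` = the function `G` of PRM (unique: its values at `n` and at `∞`).  Linear: the sums have finitely many nonzero terms, independent of the functions (UNM (1): at most one `α` with `θ * w ≠ 0`; `χ α x ≠ 0` for finitely many `α` only:
`Pieces.supp`), `Gm` is linear in `F`.  Continuous for the pointwise topologies: every value depends on finitely many values.  `q (i F) = F` by QRM. -/
def RlmStmt : Prop := ∀ (S M : Type) [TopologicalSpace S] [TopologicalSpace.MetrizableSpace S]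
  [MetricSpace M] [CompactSpace M] [Nontrivial M], Sim M →
  ∀ O : Set (S × M), IsOpen O → Stb O

/-! ## Block C: the theorem -/

/-- **LCM** (easy; edit of `Pool/Agent/Helper65_LPR/LOC.lean`, with `M` in place of `unitInterval`).  Transport to the chart. -/
def LcmStmt : Prop := ∀ (X S M : Type) [TopologicalSpace X] [TopologicalSpace S]
  [TopologicalSpace M] (N : Set X) (_ : ↥N ≃ₜ S × M) (O : Set X), IsOpen O → closure O ⊆ N →
  ∃ O' : Set (S × M), IsOpen O' ∧ Nonempty (↥(Fo O) ≃L[ℝ] ↥(Fo O')) ∧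
    Nonempty (↥(Sg O) ≃L[ℝ] ↥(Sg O'))

/-- **LSM** (easy-medium; uses LGL (`LPR.LglStmt`) RLM LCM; edit of `Pool/Agent/Helper39_LPR/LPS.lean`).  Local products with a self-similar factor: everything is stable.
(`S` is metrizable: embed it by `s ↦ e.symm (s, u₀)`; `letI := TopologicalSpace.metrizableSpaceMetric M`.) -/
def LsmStmt : Prop := ∀ (X : Type) [TopologicalSpace X] [TopologicalSpace.MetrizableSpace X],
  LocSim X → Stb (Set.univ : Set X)

/-- **UIM** (easy).  The interval is self-similar.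
PROOF. An open set which contains `x` contains a nondegenerate interval `[a, b]`; `η u = a + u (b - a)`. -/
def UimStmt : Prop := Sim unitInterval ∧ Nontrivial unitInterval

/-- **FSM** (assembly: helper18).  THE THEOREM -/
def FsmStmt : Prop := ∀ (X : Type) [TopologicalSpace X] [TopologicalSpace.MetrizableSpace X],
  (LocSim X ∨ ∀ x : X, ∃ φ : ℝ → X → X, Continuous (fun q : ℝ × X => φ q.1 q.2) ∧
    (∀ y, φ 0 y = y) ∧ (∀ s t y, φ (s + t) y = φ s (φ t y)) ∧ ∃ t, φ t x ≠ x) →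
  LStable X ∧ SStable X

end Pool.Agent.SSF
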