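import Pool.Agent.SSF.Stmts
import Pool.Agent.CMG.Stmts

/-!
# Squad SSF (MP_005a41_gt), part B: compact homogeneous spaces

THEOREM (`HgsStmt`).  Every infinite metrizable space on which a compact group acts transitively is l-stable and S-stable.

RULES.  As in `Pool/Agent/SSF/Stmts.lean`: one file per row `Pool/Agent/HelperNN_SSF/XXX.lean`, import `Pool.Agent.SSF.StmtsB`, namespace
`Pool.Agent.SSF.HNN`, `open Pool.Agent.LSG Pool.Agent.LPR Pool.Agent.SSF Pool.Agent.CMG`.
-/

set_option autoImplicit false

open Set Topology

namespace Pool.Agent.SSF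

open Pool.Agent.LSG Pool.Agent.LPR

/-- **EFF** (easy-medium).  The group that acts effectively is metrizable.
PROOF. `N` = the kernel of the action (`(MulAction.toPermHom G X).ker`), closed and normal; `Q = G ⧸ N`, compact Hausdorff, acts on `X` (`QuotientGroup.kerLift` and `MulAction.compHom`, or define `q • x` by `Quotient.liftOn`), continuously (`G × X → Q × X` is an open quotient
map), effectively, and transitively if `G` does.  Let `D` be a countable dense subset of `X` (compact metrizable, so separable): `Q → (D → X)`, `q ↦ (q • d)`, is continuous and injective, `Q` is compact, `D → X` is metrizable: an embedding, so `Q` is metrizable. -/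
def EffStmt : Prop := ∀ (G X : Type) [Group G] [TopologicalSpace G] [IsTopologicalGroup G]
  [CompactSpace G] [TopologicalSpace X] [TopologicalSpace.MetrizableSpace X] [CompactSpace X]
  [MulAction G X] [ContinuousSMul G X], (∀ x y : X, ∃ g : G, g • x = y) →
  ∃ (Q : Type) (_ : Group Q) (_ : TopologicalSpace Q) (_ : IsTopologicalGroup Q)
    (_ : CompactSpace Q) (_ : TopologicalSpace.MetrizableSpace Q) (_ : MulAction Q X)
    (_ : ContinuousSMul Q X), (∀ q : Q, (∀ x : X, q • x = x) → q = 1) ∧
    ∀ x y : X, ∃ q : Q, q • x = y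

/-- **TDX** (easy-medium).  Homogeneous spaces of profinite groups are totally disconnected.
PROOF. Let `x ≠ y`.  `{g | g • x ≠ y}` is an open neighbourhood of 1, so it contains an open subgroup `V` (compact totally disconnected groups: `compact_exists_isClopen_in_isOpen` and `TopologicalGroup.exist_openSubgroup_sub_clopen_nhds_of_one`): `y ∉ V • x`.  `V` has
finite index: `Q = ⋃ V g_i`, a finite union, so `X = Q • x` is the union of finitely many `V`-orbits; they are compact, so closed, and pairwise disjoint or equal, so every `V`-orbit is clopen.  So `X` is totally separated. -/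
def TdxStmt : Prop := ∀ (Q X : Type) [Group Q] [TopologicalSpace Q] [IsTopologicalGroup Q]
  [CompactSpace Q] [TopologicalSpace.MetrizableSpace Q] [TotallyDisconnectedSpace Q]
  [TopologicalSpace X] [TopologicalSpace.MetrizableSpace X] [MulAction Q X]
  [ContinuousSMul Q X], (∀ x y : X, ∃ q : Q, q • x = y) → TotallyDisconnectedSpace X

/-- **CPX** (easy-medium; uses BRO CPE BRI; edit of `Pool/Agent/Helper47_CMG/CPT.lean`).  Cantor sets are S-stable. -/
def CpxStmt : Prop := ∀ (X : Type) [TopologicalSpace X] [CompactSpace X]
  [TopologicalSpace.MetrizableSpace X] [TotallyDisconnectedSpace X] [Nonempty X],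
  (∀ x : X, ¬ IsOpen ({x} : Set X)) → SStable X

/-- **FLH** (easy-medium).  Flows on a homogeneous space.
PROOF. `γ t ≠ 1` moves a point `x₀` (effective action).  `x = q • x₀` is moved by `φ s y = (q * γ s * q⁻¹) • y` at the time `t`. -/
def FlhStmt : Prop := ∀ (Q X : Type) [Group Q] [TopologicalSpace Q] [IsTopologicalGroup Q]
  [TopologicalSpace X] [MulAction Q X] [ContinuousSMul Q X],
  (∀ q : Q, (∀ x : X, q • x = x) → q = 1) → (∀ x y : X, ∃ q : Q, q • x = y) →
  ∀ γ : ℝ → Q, Continuous γ → (∀ s t, γ (s + t) = γ s * γ t) → (∃ t, γ t ≠ 1) →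
  ∀ x : X, ∃ φ : ℝ → X → X, Continuous (fun q : ℝ × X => φ q.1 q.2) ∧
    (∀ y, φ 0 y = y) ∧ (∀ s t y, φ (s + t) y = φ s (φ t y)) ∧ ∃ t, φ t x ≠ x

/-- **HGS** (easy-medium; uses EFF TDX CPX FLH and `CMG.NcgStmt`, `SSF.FsmStmt`, `LPR.StlStmt`).  THE THEOREM of part B.
PROOF. `X` is not empty (infinite) and compact (an image of `G` under `g ↦ g • x₀`).  `Q` from EFF.  If `Q` is totally disconnected, so is `X` (TDX), and no point is open (otherwise all are, by `x ↦ q • x`, and `X` would be discrete and compact, so finite): CPX, and STL for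
l-stable.  Otherwise `NcgStmt` gives `γ`, FLH and `FsmStmt` (second alternative). -/
def HgsStmt : Prop := ∀ (G X : Type) [Group G] [TopologicalSpace G] [IsTopologicalGroup G]
  [CompactSpace G] [TopologicalSpace X] [TopologicalSpace.MetrizableSpace X] [Infinite X]
  [MulAction G X] [ContinuousSMul G X], (∀ x y : X, ∃ g : G, g • x = y) →
  LStable X ∧ SStable X

end Pool.Agent.SSF
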