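import Pool.Agent.SSF.Stmts

/-!
# Squad SSF (MP_005a41_gt), part C: locally finite closed covers

THEOREM (`HfcStmt`).  If a metrizable space `X` is the union of a locally finite family of closed subspaces each of which is locally a
product with a self-similar compact space (`LocSim`), then `X` is l-stable and S-stable: locally finite polyhedra without isolated points, unions of closed manifolds, ...

RULES.  One file per row `Pool/Agent/HelperNN_SSF/XXX.lean`, import `Pool.Agent.SSF.StmtsC`, namespace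
`Pool.Agent.SSF.HNN`, `open Pool.Agent.LSG Pool.Agent.LPR Pool.Agent.SSF`.
-/

set_option autoImplicit false

open Set Topology

namespace Pool.Agent.SSF

open Pool.Agent.LSG Pool.Agent.LPR

/-- every open subset of `X` is stable -/
def HS (X : Type) [TopologicalSpace X] : Prop := ∀ O : Set X, IsOpen O → Stb O

/-- **HGL** (easy; uses UNI DJU MIC of LPR; edit of `Pool/Agent/Helper46_LPR/LGL.lean`: MIC gives the statement for all open subsets). -/
def HglStmt : Prop := ∀ (X : Type) [TopologicalSpace X] [TopologicalSpace.MetrizableSpace X],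
  (∀ x : X, ∃ O : Set X, IsOpen O ∧ x ∈ O ∧ ∀ O' : Set X, O' ⊆ O → IsOpen O' → Stb O') → HS X

/-- **HLS** (easy; uses HGL RLM LCM; edit of `Pool/Agent/Helper49_SSF/LSM.lean`). -/
def HlsStmt : Prop := ∀ (X : Type) [TopologicalSpace X] [TopologicalSpace.MetrizableSpace X],
  LocSim X → HS X

/-- **HHO** (easy).  Invariance under homeomorphisms.  PROOF. `Fo O` and `Fo (e '' O)` (or `e.symm ⁻¹' O`) are isomorphic by composition with `e`, the same for `Sg`. -/
def HhoStmt : Prop := ∀ (X Y : Type) [TopologicalSpace X] [TopologicalSpace Y],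
  Nonempty (X ≃ₜ Y) → HS X → HS Y

/-- **HFO** (medium; uses DUG).  PROOF. `C = A ∪ Oᶜ` is closed, `e : Cp C → Cp X` from DUG (`LEmc C`).  For `f ∈ Fo (A ∩ O)` let `f'` = `f` on `A`, 0 on `Oᶜ` (continuous on `C`: two closed sets, equal on the intersection), `E f = e f'`: it is `f` on `A` and 0 off `O`.
For `g ∈ Fo (B ∩ O \ A)` (it vanishes on `A ∩ B`) let `g'` = `g` on `B`, 0 on `A`: continuous (closed cover), 0 off `O`.  `i (f, g) = E f + g'`, `p h = (h|A, (h - E (h|A))|B)`; `p (i (f, g)) = (f, g)`. -/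
def HfoStmt : Prop := ∀ (X : Type) [TopologicalSpace X] [TopologicalSpace.MetrizableSpace X]
  (A B : Set X), IsClosed A → IsClosed B → A ∪ B = Set.univ → ∀ O : Set X, IsOpen O →
  Compl (↥(Fo (Subtype.val ⁻¹' O : Set ↥A)) × ↥(Fo (Subtype.val ⁻¹' (O \ A) : Set ↥B))) ↥(Fo O)

/-- **HSG** (medium; uses DUG).  PROOF. In `X' = X × OnePoint ℕ` (metrizable) let `C = {y | y.1 ∈ A ∨ y.1 ∉ O ∨ y.2 = ∞}`, closed, `e : Cp C → Cp X'` from DUG.  For `F ∈ Sg (A ∩ O)` let `F'` = `F` on `A × OnePoint ℕ`, 0 on the rest of `C` (continuous: closed sets, equal on the intersections), `E F = e F'`: it is `F` on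
`A × OnePoint ℕ`, 0 off `O` and at `∞`.  `i F = (F|A, (F - E (F|A))|B)` (the second component vanishes on `A`), `p (F₁, F₂) = E F₁ + F₂'`, `F₂'` = `F₂` on `B × OnePoint ℕ`, 0 on `A × OnePoint ℕ`.  `p (i F) = F`. -/
def HsgStmt : Prop := ∀ (X : Type) [TopologicalSpace X] [TopologicalSpace.MetrizableSpace X]
  (A B : Set X), IsClosed A → IsClosed B → A ∪ B = Set.univ → ∀ O : Set X, IsOpen O →
  Compl ↥(Sg O) (↥(Sg (Subtype.val ⁻¹' O : Set ↥A)) × ↥(Sg (Subtype.val ⁻¹' (O \ A) : Set ↥B)))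

/-- **HU2** (easy; uses HFO HSG).  PROOF. `Compl (Sg O) (Sg_A × Sg_B)`, `Compl (Sg_A × Sg_B) (Fo_A × Fo_B)` (products of the maps given by HS), `Compl (Fo_A × Fo_B) (Fo O)`; compose. -/
def Hu2Stmt : Prop := ∀ (X : Type) [TopologicalSpace X] [TopologicalSpace.MetrizableSpace X]
  (A B : Set X), IsClosed A → IsClosed B → A ∪ B = Set.univ → HS ↥A → HS ↥B → HS X

/-- **HUF** (easy-medium; uses HHO HU2).  PROOF. Induction on `F`.  Empty: all function spaces are subsingletons.  `insert j F`: in `Z = ↥(⋃ i ∈ insert j F, Y i)` the sets `A` = the preimage of `Y j` and `B` = the preimage of `⋃ i ∈ F, Y i` are closed, cover, and are homeomorphic to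
`↥(Y j)` and `↥(⋃ i ∈ F, Y i)`: HHO, HU2. -/
def HufStmt : Prop := ∀ (X I : Type) [TopologicalSpace X] [TopologicalSpace.MetrizableSpace X]
  (F : Finset I) (Y : I → Set X), (∀ i, IsClosed (Y i)) → (∀ i ∈ F, HS ↥(Y i)) →
  HS ↥(⋃ i ∈ F, Y i)

/-- **HLF** (easy-medium; uses HGL HUF HHO LCM).  PROOF. Let `x : X`, `U` a neighbourhood which meets only the `Y i` with `i ∈ F`, `O ∋ x` open with `closure O ⊆ U`: then `closure O ⊆ N = ⋃ i ∈ F, Y i`.  For `O' ⊆ O` open: LCM for `N` with `S = ↥N`, `M = Unit` (`↥N ≃ₜ ↥N × Unit`: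
`Homeomorph.prodPUnit`), HUF, HHO: `Stb O'` (transport by the isomorphisms).  HGL. -/
def HlfStmt : Prop := ∀ (X I : Type) [TopologicalSpace X] [TopologicalSpace.MetrizableSpace X]
  (Y : I → Set X), (∀ i, IsClosed (Y i)) → LocallyFinite Y → (⋃ i, Y i) = Set.univ →
  (∀ i, HS ↥(Y i)) → HS X

/-- `X` is a locally finite union of closed local products -/
def PieSim (X : Type) [TopologicalSpace X] : Prop :=
  ∃ (I : Type) (Y : I → Set X), (∀ i, IsClosed (Y i)) ∧ LocallyFinite Y ∧
    (⋃ i, Y i) = Set.univ ∧ ∀ i, LocSim ↥(Y i)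

/-- **HFC** (assembly: helper18).  THE THEOREM of part C -/
def HfcStmt : Prop := ∀ (X : Type) [TopologicalSpace X] [TopologicalSpace.MetrizableSpace X],
  PieSim X → LStable X ∧ SStable X

end Pool.Agent.SSF
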